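import Pool.Agent.Helper4.SZ.PartAllAux
import Pool.Agent.Helper18.SZ.PartFam

/-!
Project SZ, module SZ-9: averages over intersections of insensitive sets.
-/

namespace Pool.Agent.Helper52.SZ

open Combinatorics

theorem part_all {α : Type} [Finite α] [Nonempty α] (h : MDHJ α) (d : ℕ) (β : ℝ)
    (hβ : 0 < β) :
    ∃ n0 : ℕ, ∀ (ι : Type) [Finite ι], n0 ≤ Nat.card ι →
      ∀ (E : α → Set (ι → Option α)) (f : (ι → Option α) → ℝ),
        (∀ i, Ins i (E i)) → (∀ w, f w ≤ 1) → Ok d f → av ((⋂ i, E i).indicator f) ≤ β := by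
  have := Fintype.ofFinite α
  obtain ⟨n0, h0⟩ := pa_all (fun i d β hβ => part_one h i d β hβ) Finset.univ d β hβ
  refine ⟨n0, fun ι _ hι E f hE hf hO => ?_⟩
  have h1 := h0 ι hι E f hE hf hO
  simpa using h1

end Pool.Agent.Helper52.SZ
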