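import Pool.Agent.Helper52.SZ.Defs

/-!
Project SZ, module SZ-9, part 1: from one insensitive set to intersections of insensitive sets.
-/

namespace Pool.Agent.Helper52.SZ

open Combinatorics

/-- the identity as a subspace -/
def pa_id (η β : Type) : Subspace η β η where
  idxFun := Sum.inr
  proper e := ⟨e, rfl⟩

theorem pa_id_apply {η β : Type} (x : η → β) : pa_id η β x = x := by
  funext j
  simp [Subspace.coe_apply, pa_id]

theorem pa_rep {α ι η : Type} (i : α) (V : Subspace η (Option α) ι) (x : η → Option α) :
    rep i (V x) = rep i (V (inc (rep i x))) := by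
  funext j
  simp only [rep, Subspace.coe_apply]
  cases V.idxFun j with
  | inl a => rfl
  | inr e => rfl

theorem pa_ins {α ι η : Type} {i : α} {E : Set (ι → Option α)} (hE : Ins i E)
    (V : Subspace η (Option α) ι) : Ins i {x : η → Option α | V x ∈ E} := by
  intro x
  change V x ∈ E ↔ V (inc (rep i x)) ∈ E
  rw [hE (V x), hE (V (inc (rep i x))), ← pa_rep]

theorem pa_empty {α : Type} [Finite α] {d : ℕ} {ι : Type} [Finite ι] (hι : d ≤ Nat.card ι)
    {f : (ι → Option α) → ℝ} (hf : Ok d f) : av f ≤ 0 := by
  obtain ⟨κ', hκ', ⟨e⟩, _⟩ := exists_split (ι := ι) hι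
  rw [av_glue e]
  have h : ∀ v : κ' → Option α, av (fun u : Fin d → Option α => f (glue e u v)) ≤ 0 := by
    intro v
    have h1 := hf (subL e (pa_id (Fin d) (Option α)) v)
    simpa only [subL_apply, pa_id_apply] using h1
  have := av_mono (g := fun _ => (0 : ℝ)) h
  rwa [av_zero] at this

theorem pa_all {α : Type} [Finite α]
    (h1 : ∀ (i : α) (d : ℕ) (β : ℝ), 0 < β → ∃ n0 : ℕ, ∀ (ι : Type) [Finite ι],
      n0 ≤ Nat.card ι → ∀ (E : Set (ι → Option α)) (f : (ι → Option α) → ℝ),
        Ins i E → (∀ w, f w ≤ 1) → Ok d f → av (E.indicator f) ≤ β) (S : Finset α) :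
    ∀ (d : ℕ) (β : ℝ), 0 < β → ∃ n0 : ℕ, ∀ (ι : Type) [Finite ι], n0 ≤ Nat.card ι →
      ∀ (E : α → Set (ι → Option α)) (f : (ι → Option α) → ℝ),
        (∀ i, Ins i (E i)) → (∀ w, f w ≤ 1) → Ok d f →
        av ((⋂ i ∈ S, E i).indicator f) ≤ β := by
  classical
  induction S using Finset.induction_on with
  | empty =>
    intro d β hβ
    refine ⟨d, fun ι _ hι E f _ _ hf => ?_⟩
    have e : (⋂ i ∈ (∅ : Finset α), E i) = Set.univ := by simp
    rw [e, Set.indicator_univ]
    exact (pa_empty hι hf).trans hβ.le
  | insert i S hi ih =>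
    intro d β hβ
    obtain ⟨n1, hn1⟩ := h1 i d (β / 2) (by positivity)
    obtain ⟨n2, hn2⟩ := ih n1 (β / 2) (by positivity)
    refine ⟨n2, fun ι _ hι E f hE hf hO => ?_⟩
    have key := hn2 ι hι E (fun w => (E i).indicator f w - β / 2) hE ?_ ?_
    · have e : (⋂ j ∈ insert i S, E j).indicator f = fun w =>
          (⋂ j ∈ S, E j).indicator (fun w => (E i).indicator f w - β / 2) w +
            (β / 2) * (⋂ j ∈ S, E j).indicator (fun _ => (1 : ℝ)) w := by
        funext w
        by_cases hS : w ∈ ⋂ j ∈ S, E j
        · rw [Set.indicator_of_mem hS, Set.indicator_of_mem hS]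
          by_cases hw : w ∈ E i
          · have : w ∈ ⋂ j ∈ insert i S, E j := by
              rw [Finset.set_biInter_insert]
              exact ⟨hw, hS⟩
            rw [Set.indicator_of_mem this, Set.indicator_of_mem hw]
            ring
          · have : w ∉ ⋂ j ∈ insert i S, E j := by
              rw [Finset.set_biInter_insert]
              exact fun h => hw h.1
            rw [Set.indicator_of_notMem this, Set.indicator_of_notMem hw]
            ring
        · have : w ∉ ⋂ j ∈ insert i S, E j := by
            rw [Finset.set_biInter_insert]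
            exact fun h => hS h.2
          rw [Set.indicator_of_notMem this, Set.indicator_of_notMem hS,
            Set.indicator_of_notMem hS]
          ring
      rw [e, av_add, av_const_mul]
      have h2 : av ((⋂ j ∈ S, E j).indicator (fun _ => (1 : ℝ))) ≤ 1 := dn_le_one _
      have h3 : β / 2 * av ((⋂ j ∈ S, E j).indicator (fun _ => (1 : ℝ))) ≤ β / 2 * 1 :=
        mul_le_mul_of_nonneg_left h2 (by positivity)
      calc _ ≤ β / 2 + β / 2 * 1 := add_le_add key h3
        _ = β := by ring
    · intro w
      by_cases hw : w ∈ E i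
      · simp only [Set.indicator_of_mem hw]
        linarith [hf w]
      · simp only [Set.indicator_of_notMem hw]
        linarith
    · intro V
      have h2 := hn1 (Fin n1) (by simp) {x | V x ∈ E i} (fun x => f (V x))
        (pa_ins (hE i) V) (fun x => hf _) ?_
      · rw [av_sub, av_const]
        have e : (fun x => (E i).indicator f (V x)) =
            {x | V x ∈ E i}.indicator (fun x => f (V x)) := by
          funext x
          by_cases hx : V x ∈ E i
          · rw [Set.indicator_of_mem hx,
              Set.indicator_of_mem (show x ∈ {x | V x ∈ E i} from hx)]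
          · rw [Set.indicator_of_notMem hx,
              Set.indicator_of_notMem (show x ∉ {x | V x ∈ E i} from hx)]
        rw [e]
        linarith
      · intro U
        have h3 := hO (compS V U)
        simpa only [compS_apply] using h3

end Pool.Agent.Helper52.SZ
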